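import Pool.Agent.Q211.CW.Det

/-!
# Non-constant functions converging along random walks have an infinite dimensional orbit span
-/

set_option autoImplicit false

open MeasureTheory Filter Topology ProbabilityTheory

namespace Pool.Agent.Results.MP_0b4a43_pr.InfiniteOrbitSpan

/-- The random walk: `walk u t = u 0 * u 1 * ... * u (t - 1)`. -/
def walk {G : Type*} [Group G] (u : ℕ → G) (t : ℕ) : G := ((List.range t).map u).prod

/-- Let `G` be a topological group and `μ` a Borel probability measure on `G` which is adapted
(no proper closed subgroup has full measure) and symmetric.  Let `U 0, U 1, ...` be independent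
random elements with law `μ`, and let `f` be a continuous function such that `f (x X_t)` converges
almost surely for every `x`.  If `f` is not constant, the span of its left translates is infinite
dimensional. -/
theorem result {G : Type*} [Group G] [TopologicalSpace G] [IsTopologicalGroup G]
    [MeasurableSpace G] [BorelSpace G] (μ : Measure G) [IsProbabilityMeasure μ]
    (hadapted : ∀ H : Subgroup G, IsClosed (H : Set G) → H ≠ ⊤ → μ H < 1)
    (hsymm : ∀ A : Set G, MeasurableSet A → μ A⁻¹ = μ A)
    {Ω : Type*} [MeasurableSpace Ω] (P : Measure Ω) [IsProbabilityMeasure P]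
    (U : ℕ → Ω → G) (hU : ∀ t, Measurable (U t)) (hlaw : ∀ t, P.map (U t) = μ)
    (hind : iIndepFun U P) (f : G → ℝ) (hf : Continuous f)
    (hconv : ∀ x : G, ∀ᵐ ω ∂P, ∃ l : ℝ,
      Tendsto (fun t => f (x * walk (fun i => U i ω) t)) atTop (𝓝 l))
    (hne : ∃ x y, f x ≠ f y) :
    ¬ FiniteDimensional ℝ
      (Submodule.span ℝ (Set.range fun γ : G => fun x : G => f (γ⁻¹ * x))) := by
  intro hfin
  obtain ⟨x, y, hxy⟩ := hne
  refine hxy (Pool.Agent.Q211.CW.const_of_converges (μ := μ) ?_ hsymm hU hlaw hind hf hconv
    hfin x y)
  intro H hH h1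
  by_contra hne
  exact absurd h1 (ne_of_lt (hadapted H hH hne))

end Pool.Agent.Results.MP_0b4a43_pr.InfiniteOrbitSpan
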